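import Pool.Agent.Y947.RL.Stm

set_option autoImplicit false

/-!
# Project RL: the resultant of `α ^ p` divided by the one of `α`, and the Frobenius congruence
-/

open Finset Polynomial Module Pool.Agent.H388SL Pool.Agent.Y947.DL Pool.Agent.Y947.RL

namespace Pool.Agent.Y65.RL

/-- evaluation of a polynomial in two variables -/
noncomputable def ev {A : Type*} [CommRing A] (ω a : A) : ℤ[X][X] →+* A :=
  eval₂RingHom (aeval ω : ℤ[X] →ₐ[ℤ] A).toRingHom a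

lemma ev_eq {A : Type*} [CommRing A] (ω a : A) (P : ℤ[X][X]) : ev ω a P = (sp ω P).eval a := by
  unfold ev sp
  rw [Polynomial.eval_map]
  rfl

lemma hom_ev {A B : Type*} [CommRing A] [CommRing B] (f : A →+* B) (ω a : A) :
    f.comp (ev ω a) = ev (f ω) (f a) := by
  apply Polynomial.ringHom_ext'
  · apply Polynomial.ringHom_ext'
    · exact Subsingleton.elim _ _
    · simp [ev]
  · simp [ev]

lemma map_ev {K : Type*} [Field K] [NumberField K] (σ : K →ₐ[ℚ] ℂ) (ω a : K) (P : ℤ[X][X]) :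
    σ (ev ω a P) = ev (σ ω) (σ a) P := by
  have h := hom_ev (σ : K →+* ℂ) ω a
  have h2 := congrArg (fun f : ℤ[X][X] →+* ℂ => f P) h
  exact h2

lemma isIntegral_ev {K : Type*} [Field K] {ω a : K} (hω : IsIntegral ℤ ω) (ha : IsIntegral ℤ a)
    (P : ℤ[X][X]) : IsIntegral ℤ (ev ω a P) := by
  unfold ev
  rw [coe_eval₂RingHom, eval₂_eq_sum_range]
  apply IsIntegral.sum
  intro i _
  refine IsIntegral.mul ?_ (ha.pow _)
  show IsIntegral ℤ (aeval ω (P.coeff i))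
  rw [aeval_eq_sum_range]
  apply IsIntegral.sum
  intro j _
  rw [zsmul_eq_mul]
  exact (isIntegral_algebraMap (R := ℤ) (A := K) (x := (P.coeff i).coeff j)).mul (hω.pow _)

lemma ne_self {K : Type*} [Field K] [NumberField K] {m : ℕ} {ζ α : K} (h : Ctx m ζ α) {p : ℕ}
    (hp : 0 < p) (σ : K →ₐ[ℚ] ℂ) (τ : K →ₐ[ℚ] ℂ) (hτ : τ ∈ cls ζ (σ ζ)) :
    ∑ l ∈ range p, (σ α) ^ l * (τ α) ^ (p - 1 - l) ≠ 0 := by
  classical
  intro h0
  have hτ1 : τ ζ = σ ζ := by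
    unfold cls at hτ
    exact (mem_filter.1 hτ).2
  by_cases hst : σ = τ
  · subst hst
    have h1 : ∑ l ∈ range p, (σ α) ^ l * (σ α) ^ (p - 1 - l) = p * (σ α) ^ (p - 1) := by
      rw [Finset.sum_congr rfl (g := fun _ => (σ α) ^ (p - 1))]
      · simp
      · intro l hl
        rw [mem_range] at hl
        rw [← pow_add]
        congr 1
        omega
    rw [h1] at h0
    have h2 : σ α ≠ 0 := (map_ne_zero σ).mpr h.h0
    have h3 : (p : ℂ) ≠ 0 := by exact_mod_cast hp.ne'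
    exact (mul_ne_zero h3 (pow_ne_zero _ h2)) h0
  · have h1 := Commute.geom_sum₂_mul (Commute.all (σ α) (τ α)) p
    rw [h0, zero_mul] at h1
    exact hst (h.gen σ τ hτ1.symm (h.inj p hp σ τ (sub_eq_zero.mp h1.symm)))

lemma sp_monic {A : Type*} [CommRing A] (ω : A) {F : ℤ[X][X]} (hF : F.Monic) : (sp ω F).Monic :=
  hF.map _

lemma exists_emb (K : Type*) [Field K] [NumberField K] : Nonempty (K →ₐ[ℚ] ℂ) :=
  ⟨IsAlgClosed.lift⟩

theorem quo : S_J0 → S_TR → S_QUO := by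
  classical
  intro hJ _ K _ _ m ζ α h p hp
  refine ⟨fun σ τ hτ => ne_self h hp σ τ hτ, ?_⟩
  obtain ⟨F, hF, hF1⟩ := hJ K m ζ h.hm h.hζ α h.hα
  obtain ⟨G, _, hG1⟩ := hJ K m ζ h.hm h.hζ (α ^ p) (h.hα.pow p)
  have hQ : ∀ σ : K →ₐ[ℚ] ℂ, sp (σ ζ) ((expand ℤ[X] p G) /ₘ F) =
      ∏ τ ∈ cls ζ (σ ζ), ∑ l ∈ range p, X ^ l * C (τ α) ^ (p - 1 - l) := by
    intro σ
    have e1 : sp (σ ζ) ((expand ℤ[X] p G) /ₘ F) =
        (expand ℂ p (sp (σ ζ) G)) /ₘ (sp (σ ζ) F) := by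
      unfold sp
      rw [Polynomial.map_divByMonic _ hF, Polynomial.map_expand]
    rw [e1, ← Polynomial.mul_divByMonic_cancel_left (∏ τ ∈ cls ζ (σ ζ),
      ∑ l ∈ range p, (X : ℂ[X]) ^ l * C (τ α) ^ (p - 1 - l)) (sp_monic (σ ζ) hF)]
    congr 1
    rw [hF1, hG1, ← Finset.prod_mul_distrib, map_prod]
    refine Finset.prod_congr rfl fun τ _ => ?_
    rw [map_sub, expand_X, expand_C, map_pow, C_pow, mul_comm]
    exact (Commute.geom_sum₂_mul (Commute.all (X : ℂ[X]) (C (τ α))) p).symm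
  obtain ⟨x, hx⟩ : ∃ x, x = ev ζ α ((expand ℤ[X] p G) /ₘ F) := ⟨_, rfl⟩
  have hσ : ∀ σ : K →ₐ[ℚ] ℂ, σ x =
      ∏ τ ∈ cls ζ (σ ζ), ∑ l ∈ range p, (σ α) ^ l * (τ α) ^ (p - 1 - l) := by
    intro σ
    rw [hx, map_ev, ev_eq, hQ, eval_prod]
    refine Finset.prod_congr rfl fun τ _ => ?_
    rw [eval_finsetSum]
    simp
  have hζi : IsIntegral ℤ ζ := h.hζ.isIntegral h.hm
  have hxi : IsIntegral ℤ x := by
    rw [hx]
    exact isIntegral_ev hζi h.hα _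
  have hx0 : x ≠ 0 := by
    intro h0
    obtain ⟨σ⟩ := exists_emb K
    have h2 := hσ σ
    rw [h0, map_zero] at h2
    obtain ⟨τ, hτ, hτ0⟩ := Finset.prod_eq_zero_iff.mp h2.symm
    exact ne_self h hp σ τ hτ hτ0
  refine (one_le_prod_norm hxi hx0).trans (le_of_eq ?_)
  refine Finset.prod_congr rfl fun σ _ => ?_
  rw [hσ, norm_prod]

/-- the substitution `T ↦ T ^ p`, `X ↦ X ^ p` -/
noncomputable def Ep (p : ℕ) : ℤ[X][X] →+* ℤ[X][X] :=
  eval₂RingHom (C.comp (expand ℤ p : ℤ[X] →ₐ[ℤ] ℤ[X]).toRingHom) (X ^ p)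

lemma ev_Ep {A : Type*} [CommRing A] (ω a : A) (p : ℕ) :
    (ev ω a).comp (Ep p) = ev (ω ^ p) (a ^ p) := by
  apply Polynomial.ringHom_ext'
  · apply Polynomial.ringHom_ext'
    · exact Subsingleton.elim _ _
    · simp [ev, Ep, eval₂_pow]
  · simp [ev, Ep]

lemma frob (p : ℕ) (hp : p.Prime) (F : ℤ[X][X]) : ∃ G : ℤ[X][X], F ^ p = Ep p F + (p : ℤ[X][X]) * G := by
  haveI : Fact p.Prime := ⟨hp⟩
  obtain ⟨ψ, hψ⟩ : ∃ ψ : ℤ[X][X] →+* (ZMod p)[X][X],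
    ψ = mapRingHom (mapRingHom (Int.castRingHom (ZMod p))) := ⟨_, rfl⟩
  have e : (frobenius ((ZMod p)[X][X]) p).comp ψ = ψ.comp (Ep p) := by
    rw [hψ]
    apply Polynomial.ringHom_ext'
    · apply Polynomial.ringHom_ext'
      · exact Subsingleton.elim _ _
      · simp [Ep, frobenius_def]
    · simp [Ep, frobenius_def]
  have e1 : ψ (F ^ p - Ep p F) = 0 := by
    have e2 := congrArg (fun f : ℤ[X][X] →+* (ZMod p)[X][X] => f F) e
    simp only [RingHom.comp_apply, frobenius_def] at e2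
    rw [map_sub, map_pow, e2, sub_self]
  have e2 : (C (C (p : ℤ)) : ℤ[X][X]) ∣ F ^ p - Ep p F := by
    rw [Polynomial.C_dvd_iff_dvd_coeff]
    intro i
    rw [Polynomial.C_dvd_iff_dvd_coeff]
    intro j
    have e3 := congrArg (fun P : (ZMod p)[X][X] => (P.coeff i).coeff j) e1
    rw [hψ] at e3
    simp only [coe_mapRingHom, coeff_map, coeff_zero, eq_intCast] at e3
    exact (ZMod.intCast_zmod_eq_zero_iff_dvd _ _).1 e3
  obtain ⟨G, hG⟩ := e2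
  refine ⟨G, ?_⟩
  have e4 : (C (C (p : ℤ)) : ℤ[X][X]) = (p : ℤ[X][X]) := by simp
  rw [e4] at hG
  rw [← hG]
  ring

theorem fr0 : S_J0 → S_TR → S_FR0 := by
  classical
  intro hJ hT K _ _ m ζ α hm hζ hα p hp hpm hne
  obtain ⟨F, hF, hF1⟩ := hJ K m ζ hm hζ α hα
  obtain ⟨hT1, -, -⟩ := hT K m ζ hm hζ
  obtain ⟨G, hG⟩ := frob p hp F
  have hcop : p.Coprime m := (Nat.Prime.coprime_iff_not_dvd hp).2 hpm
  obtain ⟨x, hx⟩ : ∃ x, x = ev (ζ ^ p) (α ^ p) F := ⟨_, rfl⟩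
  obtain ⟨y, hy⟩ : ∃ y, y = ev ζ α G := ⟨_, rfl⟩
  have hσ : ∀ σ : K →ₐ[ℚ] ℂ, σ x = ∏ τ ∈ cls ζ ((σ ζ) ^ p), ((σ α) ^ p - τ α) := by
    intro σ
    obtain ⟨τ0, hτ0⟩ := hT1 σ p hcop
    rw [hx, map_ev, map_pow, map_pow, ev_eq, ← hτ0, hF1, eval_prod]
    refine Finset.prod_congr rfl fun τ _ => ?_
    simp
  have hF0 : ev ζ α F = 0 := by
    obtain ⟨σ⟩ := exists_emb K
    apply (map_eq_zero σ).1
    rw [map_ev, ev_eq, hF1, eval_prod]
    refine Finset.prod_eq_zero (i := σ) ?_ (by simp)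
    unfold cls
    simp
  have hxy : x = -(p * y) := by
    have h1 := congrArg (ev ζ α) hG
    have h2 := congrArg (fun f : ℤ[X][X] →+* K => f F) (ev_Ep ζ α p)
    simp only [RingHom.comp_apply] at h2
    rw [map_pow, hF0, map_add, h2, map_mul, map_natCast, ← hx, ← hy, zero_pow hp.ne_zero] at h1
    linear_combination -h1
  have hζi : IsIntegral ℤ ζ := hζ.isIntegral hm
  have hyi : IsIntegral ℤ y := by
    rw [hy]
    exact isIntegral_ev hζi hα _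
  have hx0 : x ≠ 0 := by
    intro h0
    obtain ⟨σ⟩ := exists_emb K
    have h2 := hσ σ
    rw [h0, map_zero] at h2
    obtain ⟨τ, hτ, hτ0⟩ := Finset.prod_eq_zero_iff.mp h2.symm
    exact hne σ τ hτ (sub_eq_zero.1 hτ0)
  have hy0 : y ≠ 0 := by
    intro h0
    rw [h0, mul_zero, neg_zero] at hxy
    exact hx0 hxy
  have h1 := one_le_prod_norm hyi hy0
  have h2 : ∏ σ : K →ₐ[ℚ] ℂ, ∏ τ ∈ cls ζ ((σ ζ) ^ p), ‖(σ α) ^ p - τ α‖ =
      (p : ℝ) ^ finrank ℚ K * ∏ σ : K →ₐ[ℚ] ℂ, ‖σ y‖ := by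
    have h3 : ∀ σ : K →ₐ[ℚ] ℂ, ∏ τ ∈ cls ζ ((σ ζ) ^ p), ‖(σ α) ^ p - τ α‖ = p * ‖σ y‖ := by
      intro σ
      rw [← norm_prod, ← hσ, hxy, map_neg, norm_neg, map_mul, norm_mul, map_natCast]
      simp
    rw [Finset.prod_congr rfl (fun σ _ => h3 σ), Finset.prod_mul_distrib, Finset.prod_const,
      Finset.card_univ, AlgHom.card]
  rw [h2]
  exact le_mul_of_one_le_right (by positivity) h1

end Pool.Agent.Y65.RL
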