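import Pool.Agent.Y947.RL.Stm

set_option autoImplicit false

/-!
# Project RL: transitivity and the sizes of the classes
-/

open Finset Polynomial Module Pool.Agent.Y947.RL

namespace Pool.Agent.Y65.RL

open IntermediateField

lemma card_ext (K : Type) [Field K] [NumberField K] (L : IntermediateField ℚ K)
    (f : L →ₐ[ℚ] ℂ) :
    Nat.card {σ : K →ₐ[ℚ] ℂ // σ.comp L.val = f} = finrank L K := by
  classical
  letI : Algebra L ℂ := f.toRingHom.toAlgebra
  have h1 : Nat.card (K →ₐ[L] ℂ) = finrank L K := by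
    rw [Nat.card_eq_fintype_card, AlgHom.card]
  rw [← h1]
  refine Nat.card_congr ?_
  refine
    { toFun := fun σ =>
        { σ.1.toRingHom with
          commutes' := fun x => by
            have h2 := σ.2
            have h3 := congrArg (fun g : L →ₐ[ℚ] ℂ => g x) h2
            exact h3 }
      invFun := fun τ => ⟨{ τ.toRingHom with
          commutes' := fun q => by
            have h2 : ∀ z : K, (τ.toRingHom : K →+* ℂ) z = τ z := fun _ => rfl
            exact (map_ratCast τ.toRingHom q) }, by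
          apply AlgHom.ext
          intro x
          exact τ.commutes x⟩
      left_inv := fun σ => by
        apply Subtype.ext
        apply AlgHom.ext
        intro x
        rfl
      right_inv := fun τ => by
        apply AlgHom.ext
        intro x
        rfl }

theorem tr : S_TR := by
  classical
  intro K _ _ m ζ hm hζ
  have h3 : ∀ ω : ℂ, IsPrimitiveRoot ω m → (cls ζ ω).card * Nat.totient m = finrank ℚ K := by
    intro ω hω
    haveI : NeZero m := ⟨hm.ne'⟩
    obtain ⟨L, hL⟩ : ∃ L : IntermediateField ℚ K, L = ℚ⟮ζ⟯ := ⟨_, rfl⟩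
    have hmin : minpoly ℚ ζ = cyclotomic m ℚ := (cyclotomic_eq_minpoly_rat hζ hm).symm
    have hint : IsIntegral ℚ ζ := (hζ.isIntegral hm).tower_top
    have hfin : finrank ℚ ℚ⟮ζ⟯ = Nat.totient m := by
      rw [adjoin.finrank hint, hmin, natDegree_cyclotomic]
    have hroot : ω ∈ (minpoly ℚ ζ).aroots ℂ := by
      rw [mem_aroots, hmin]
      refine ⟨cyclotomic_ne_zero m ℚ, ?_⟩
      have h4 := hω.isRoot_cyclotomic hm
      rw [IsRoot.def] at h4
      rw [aeval_def, ← eval_map, map_cyclotomic]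
      exact h4
    obtain ⟨f, hf⟩ : ∃ f : ℚ⟮ζ⟯ →ₐ[ℚ] ℂ, f (AdjoinSimple.gen ℚ ζ) = ω := by
      refine ⟨(algHomAdjoinIntegralEquiv ℚ hint).symm ⟨ω, hroot⟩, ?_⟩
      exact algHomAdjoinIntegralEquiv_symm_apply_gen ℚ hint ⟨ω, hroot⟩
    have h5 := card_ext K ℚ⟮ζ⟯ f
    have h6 : (cls ζ ω).card = finrank ℚ⟮ζ⟯ K := by
      rw [← h5]
      have h7 : (cls ζ ω).card = Nat.card {σ : K →ₐ[ℚ] ℂ // σ ζ = ω} := by
        rw [Nat.card_eq_fintype_card, Fintype.card_subtype]
        unfold cls
        congr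
      rw [h7]
      apply Nat.card_congr
      apply Equiv.subtypeEquivRight
      intro σ
      constructor
      · intro h8
        apply (adjoin.powerBasis hint).algHom_ext
        rw [adjoin.powerBasis_gen]
        exact h8.trans hf.symm
      · intro h8
        have h9 := congrArg (fun g : ℚ⟮ζ⟯ →ₐ[ℚ] ℂ => g (AdjoinSimple.gen ℚ ζ)) h8
        exact h9.trans hf
    rw [h6, ← hfin, mul_comm]
    exact finrank_mul_finrank ℚ ℚ⟮ζ⟯ K
  have h2 : ∀ ω : ℂ, IsPrimitiveRoot ω m → ∃ τ : K →ₐ[ℚ] ℂ, τ ζ = ω := by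
    intro ω hω
    have h4 := h3 ω hω
    have h5 : 0 < finrank ℚ K := finrank_pos
    rw [← h4] at h5
    have h6 : 0 < (cls ζ ω).card := Nat.pos_of_mul_pos_right h5
    obtain ⟨τ, hτ⟩ := card_pos.1 h6
    unfold cls at hτ
    exact ⟨τ, (mem_filter.1 hτ).2⟩
  refine ⟨fun σ s hs => ?_, h2, h3⟩
  apply h2
  exact (hζ.map_of_injective σ.injective).pow_of_coprime s hs

end Pool.Agent.Y65.RL
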